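import Pool.Agent.L0h97.SE.EulerIff

/-!
# Vanishing of all the `L²`-Betti numbers and the Euler characteristic for the Poincare duality subgroups of codimension
at most one

Let the flag complex of the graph `H` be a homology manifold with the homology of the sphere of dimension `n - 1`, both
over the reals and over the field with two elements (for example a flag triangulation of the sphere of dimension
`n - 1`), `n = 2 d` or `n = 2 d + 1`, `1 ≤ d`. Let `B` be a set of vertices such that the full subcomplex spanned by `B`
is properly coloured by `d + 1` colours (for example `B` empty). There is an iterated edge subdivision `S` of `H`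
(`Sub H S`), in which the full subcomplex spanned by `B` is not changed and which is a homology sphere again, such that
the following holds for the kernel `Γ` of `W S → (ℤ/2)^m` and for every subgroup `K` of `Γ`, of finite or infinite index,
which is a Poincare duality group of type FL (`PD K q`, orientable or not). If `q = 2 d`, then the `L²`-Betti numbers of
`K` vanish in all degrees `≠ d`, and all of them vanish if and only if `χ(K) = 0`. If `q = 2 d + 1` (only possible for
`n = 2 d + 1` and `K` of finite index) then all of them vanish.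

`W S` acts on its Davis complex `Σ`, a contractible `n`-manifold if the flag complex of `S` is a (PL) triangulation of
the `(n-1)`-sphere; `M = Σ / Γ` is a closed aspherical `n`-manifold. For `n = 2 d + 1` the groups `K` with `q = 2 d` are
the Poincare duality subgroups of codimension one, for example the fundamental groups of the closed aspherical
`2 d`-manifolds which map `π_1`-injectively to `M` or to one of its covers.

The vanishing above the middle dimension for all subgroups of `Γ` and the duality are from the starting files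
(`Pool.Agent.N496.CV`).
-/

set_option autoImplicit false

namespace Pool.Agent.Results.MP_394d50_gt.CodimensionOneIff

open Pool.Agent.W907.SG Pool.Agent.W461.SGN Pool.Agent.N496.LT Pool.Agent.N496.CV
open Pool.Agent.TH652.Above (HSph)
open Pool.Agent.N504.RS.Two (HSph2)

/-- `HasL2Betti K k b`: the `k`-th `L²`-Betti number of the group `K`, Lueck's dimension of
`H_k(K; N(K)) = Tor_k^{ℤ[K]}(N(K), ℤ)`, is `b`. The Euler characteristic `χ(K)` is computed by any resolution `C` of `ℤ`
by finitely generated free modules (of the ranks `C.r i`) of finite length `p`. -/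
theorem result : ∀ (d n N : ℕ) (H : SimpleGraph (Fin N)), 1 ≤ d → (n = 2 * d ∨ n = 2 * d + 1) →
    HSph n H → HSph2 n H →
    ∀ (B : Set (Fin N)) (c : Fin N → Fin (d + 1)), (∀ u ∈ B, ∀ v ∈ B, H.Adj u v → c u ≠ c v) →
    ∃ (m : ℕ) (h : N ≤ m) (S : SimpleGraph (Fin m)), Sub H S ∧ HSph n S ∧ HSph2 n S ∧
      (∀ u ∈ B, ∀ v ∈ B, S.Adj (Fin.castLE h u) (Fin.castLE h v) ↔ H.Adj u v) ∧
      (th S).ker.FiniteIndex ∧ (∀ g ∈ (th S).ker, ∀ j : ℕ, 0 < j → g ^ j = 1 → g = 1) ∧
      ∀ K : Subgroup (W S), K ≤ (th S).ker →
        (Nonempty (PD K (2 * d)) → (∀ k : ℕ, k ≠ d → HasL2Betti K k 0) ∧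
          ∃ b, HasL2Betti K d b ∧ ∀ (C : V7N.FreeRes K) (p : ℕ), (∀ i, p < i → C.r i = 0) →
            (b = 0 ↔ ∑ i ∈ Finset.range (p + 1), (-1 : ℤ) ^ i * (C.r i : ℤ) = 0)) ∧
        (Nonempty (PD K (2 * d + 1)) → ∀ k : ℕ, HasL2Betti K k 0) := by
  intro d n N H hd hn hS hS2 B c hc
  obtain ⟨m, h, S, h1, h2, h3, h4, h5⟩ :=
    Pool.Agent.N496.CV.rel_all Pool.Agent.N496.CV.main H hd hn hS hS2 B c hc
  have hz : ∀ (K : Subgroup (W S)) (k : ℕ), VN831.l2Betti K k = 0 → HasL2Betti K k 0 := by
    intro K k hk
    have h6 := hasL2Betti K k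
    rwa [hk] at h6
  refine ⟨m, h, S, h1, h2, h3, h4, inferInstance, fun g hg j hj hgj => Pool.Agent.N496.CV.tf' (Fin m) S g hg j hj hgj,
    fun K hK => ⟨?_, ?_⟩⟩
  · rintro ⟨P⟩
    have h6 : ∀ k : ℕ, k ≠ d → VN831.l2Betti K k = 0 := by
      intro k hk
      rcases Nat.lt_or_gt_of_ne hk with hk | hk
      · exact pd_zero P k (2 * d - k) (by omega) (h5 K hK (2 * d - k) (by omega))
      · exact h5 K hK k (by omega)
    refine ⟨fun k hk => hz K k (h6 k hk), VN831.l2Betti K d, hasL2Betti K d, fun C p hp => ?_⟩
    rw [← Pool.Agent.L0h97.SE.euler_iff C p d hp h6]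
    refine ⟨fun h7 k => ?_, fun h7 => h7 d⟩
    by_cases hk : k = d
    · rw [hk, h7]
    · exact h6 k hk
  · rintro ⟨P⟩ k
    rcases Nat.lt_or_ge d k with hk | hk
    · exact hz K k (h5 K hK k (by omega))
    · exact hz K k (pd_zero P k (2 * d + 1 - k) (by omega) (h5 K hK (2 * d + 1 - k) (by omega)))

end Pool.Agent.Results.MP_394d50_gt.CodimensionOneIff
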