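import Pool.Agent.L0h97.SE.Win
import Pool.Agent.L0h56.SE.CHJ
import Pool.Agent.L0h48.SE.PEN

/-!
# Reflection manifolds with few walls: vanishing of all the `ℓ²`-Betti numbers and the Euler characteristic

Let the flag complex `L` of the finite graph `G` be a homology sphere (and homology manifold) of dimension `n - 1`
(`HSph n G`) with `N` vertices. The Davis complex `Σ` of the right-angled Coxeter group `W G` is a contractible homology
manifold of dimension `n`, a manifold if `L` is a combinatorial sphere, and its quotients `M = Σ / H` by the torsion-free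
subgroups `H` of finite index are closed aspherical `n`-manifolds with `χ(M) = [W : H] χ(W)` and
`b_i^(2)(M) = [W : H] b_i^(2)(W)`.

Always `N ≥ 2 n`. Let `c` be the number of the connected components of the complement of the graph `G`, that is, the
number of the join factors of `L`. The key steps are the bound `N ≥ 3 n - c` (`Pool.Agent.L0h97.SE.vertices`), so that a
flag homology `(n - 1)`-sphere which is not a join has at least `3 n - 1` vertices, and the existence of a vertex whose
link is not a join in each flag homology sphere which is not a join (`Pool.Agent.L0h97.SE.Fam.irr_link`). If the number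
of vertices is `3 n - 1`, then this vertex has exactly two nonneighbours; these are adjacent, and the contraction of the
edge between them is a suspension. If the number of vertices is `3 n - 1 + t`, then there is a vertex with exactly two
nonneighbours, or the join factors of length `k` of the links of all vertices have less than `3 k - 1 + t` vertices
(`Pool.Agent.L0h97.SE.Fam.two_or_small`).
-/

set_option autoImplicit false

namespace Pool.Agent.Results.MP_394d50_gt.FewVertices

open Pool.Agent.W907.SG Pool.Agent.W907.SM Pool.Agent.TH652.Above Pool.Agent.Y132.SI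
open Pool.Agent.L0h97.SE

/-- `G` is a suspension: `W G` is the product of an infinite dihedral group and a special subgroup -/
def IsSusp {V : Type} (G : SimpleGraph V) : Prop :=
  ∃ s t : V, s ≠ t ∧ ¬ G.Adj s t ∧ ∀ u, u ≠ s → u ≠ t → G.Adj u s ∧ G.Adj u t

/-- each join factor (connected component of the complement graph) of dimension `k - 1 ≥ 4` has at most (hence exactly)
`3 k - 1` vertices, or `k` is even and it has at most `3 k` vertices -/
def MinFactors {V : Type} [Fintype V] [LinearOrder V] (G : SimpleGraph V) : Prop :=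
  ∀ (c : Gᶜ.ConnectedComponent) [Fintype ↥c.supp] (k : ℕ), 5 ≤ k → HSph k (G.induce c.supp) →
    c.supp.ncard ≤ 3 * k - 1 ∨ (Even k ∧ c.supp.ncard ≤ 3 * k)

/-- Let `L` be a flag homology sphere of dimension `n - 1` with `N` vertices and `c` join factors, and let `e(n) = 1` if `n`
is even and `e(n) = 0` if `n` is odd. (1) `N ≥ 3 n - c`; if `N ≤ 3 n - c + t` then the `ℓ²`-Betti numbers of `W` vanish in
the degrees `i ≠ n / 2` with `|2 i - n| ≥ 2 t`; if `N = 3 n - c` then `χ(W) = 0` or `n` is even and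
`χ(W) = (-1/4)^(n/2)`. (2) If `N ≤ 3 n - c + e(n)`, or `N ≤ 5 n / 2 + 2 + e(n)`, or each join factor of
dimension `k - 1 ≥ 4` has at most `3 k - 1 + e(k)` vertices, then the `ℓ²`-Betti numbers of `W` vanish in all degrees
`≠ n / 2`, all of them vanish if and only if `χ(W) = 0`, and this is the case if and only if the Betti numbers of the
subgroups of finite index of `W` are small. (3) If `N ≤ 5 n / 2` then they all vanish if and only if `L` is a suspension;
otherwise `N = 5 n / 2`, `L` is a join of `n / 2` pentagons and `χ(W) = (-1/4)^(n/2)`. -/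
theorem result : ∀ (n : ℕ) (V : Type) [Fintype V] [LinearOrder V] (G : SimpleGraph V), HSph n G →
    (3 * n ≤ Fintype.card V + Nat.card Gᶜ.ConnectedComponent ∧
      (∀ t : ℕ, Fintype.card V + Nat.card Gᶜ.ConnectedComponent ≤ 3 * n + t →
        ∀ i : ℕ, 2 * i ≠ n → 2 * i + 2 * t ≤ n ∨ n + 2 * t ≤ 2 * i → L2Van G i) ∧
      (Fintype.card V + Nat.card Gᶜ.ConnectedComponent = 3 * n →
        chiW G = 0 ∨ (Even n ∧ chiW G = (-1 / 4) ^ (n / 2)))) ∧
    ((Fintype.card V + Nat.card Gᶜ.ConnectedComponent ≤ 3 * n ∨ 2 * Fintype.card V ≤ 5 * n + 4 ∨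
        (Even n ∧ (Fintype.card V + Nat.card Gᶜ.ConnectedComponent ≤ 3 * n + 1 ∨ 2 * Fintype.card V ≤ 5 * n + 6)) ∨
        MinFactors G) →
      (∀ i : ℕ, 2 * i ≠ n → L2Van G i) ∧ ((∀ i : ℕ, L2Van G i) ↔ chiW G = 0) ∧
      (chiW G = 0 ↔ ∀ ε : ℝ, 0 < ε → ∃ E : Finset (W G), (1 : W G) ∉ E ∧
        ∀ H : Subgroup (W G), H.FiniteIndex → (∀ g ∈ E, ∀ x : W G, x * g * x⁻¹ ∉ H) →
          ∀ i : ℕ, (Module.finrank ℝ (HInv G H i) : ℝ) ≤ ε * H.index)) ∧
    (2 * Fintype.card V ≤ 5 * n →
      ((∀ i : ℕ, L2Van G i) ↔ IsSusp G) ∧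
      (¬ IsSusp G → 2 * Fintype.card V = 5 * n ∧ chiW G = (-1 / 4) ^ (n / 2) ∧
        ∃ c : V → Fin (n / 2), (∀ u v, c u ≠ c v → G.Adj u v) ∧ ∀ j, {v | c v = j}.ncard = 5 ∧
          HSph 2 (G.induce {v | c v = j}))) := by
  classical
  intro n V _ _ G hS
  have hI := Pool.Agent.L0h97.SE.IND.ind
  have hH := Pool.Agent.L0h56.SE.t_HOM
  have hb : 3 * n ≤ Fintype.card V + Nat.card Gᶜ.ConnectedComponent := by
    have h1 := vertices (hH V G) ((hI V G n).1.1 hS)
    rwa [Nat.card_eq_fintype_card] at h1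
  have hw : ∀ t : ℕ, Fintype.card V + Nat.card Gᶜ.ConnectedComponent ≤ 3 * n + t →
      ∀ i : ℕ, 2 * i ≠ n → 2 * i + 2 * t ≤ n ∨ n + 2 * t ≤ 2 * i → L2Van G i := fun t h i hi h2 =>
    window_t hS h i (by omega)
  have hs : ∀ _ : Fintype.card V + Nat.card Gᶜ.ConnectedComponent ≤ 3 * n ∨ 2 * Fintype.card V ≤ 5 * n + 4 ∨
      (Even n ∧ (Fintype.card V + Nat.card Gᶜ.ConnectedComponent ≤ 3 * n + 1 ∨ 2 * Fintype.card V ≤ 5 * n + 6)) ∨
      MinFactors G, ∀ i : ℕ, 2 * i ≠ n → L2Van G i := by
    have hd : 2 * Fintype.card V ≤ 5 * n + 4 ∨ (Even n ∧ 2 * Fintype.card V ≤ 5 * n + 6) →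
        ∀ i : ℕ, 2 * i ≠ n → L2Van G i := by
      intro h i hi
      by_cases hsu : Susp G
      · exact susp_l2 hsu i
      · exact singer_of_er hS (er_dim hS hsu h) i hi
    rintro (h | h | ⟨he, h | h⟩ | h) i hi
    · exact singer_min hS (Or.inl h) i hi
    · exact hd (Or.inl h) i hi
    · exact singer_of_er hS (er_pred he (er_sg hS h)) i hi
    · exact hd (Or.inr ⟨he, h⟩) i hi
    · exact singer_of_er hS (er_of_parts hS fun c _ k hk hc => by
        rcases h c k hk hc with h | h
        · exact Or.inl (by omega)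
        · exact Or.inr h) i hi
  have he : ∀ _ : Fintype.card V + Nat.card Gᶜ.ConnectedComponent ≤ 3 * n ∨ 2 * Fintype.card V ≤ 5 * n + 4 ∨
      (Even n ∧ (Fintype.card V + Nat.card Gᶜ.ConnectedComponent ≤ 3 * n + 1 ∨ 2 * Fintype.card V ≤ 5 * n + 6)) ∨
      MinFactors G, ((∀ i : ℕ, L2Van G i) ↔ chiW G = 0) := fun h =>
    l2eul V G (n / 2) fun i hi => hs h i (by omega)
  refine ⟨⟨hb, hw, fun h => chi_min hS h.le⟩, fun h => ⟨hs h, he h, chi_iff G n (hs h)⟩, fun h => ?_⟩
  have hp : ¬ IsSusp G → 2 * Fintype.card V = 5 * n ∧ chiW G = (-1 / 4) ^ (n / 2) ∧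
        ∃ c : V → Fin (n / 2), (∀ u v, c u ≠ c v → G.Adj u v) ∧ ∀ j, {v | c v = j}.ncard = 5 ∧
          HSph 2 (G.induce {v | c v = j}) := fun h1 =>
    pentagons hH hI Pool.Agent.L0h56.SE.t_CHJ Pool.Agent.L0h48.SE.t_PEN hS h h1
  refine ⟨⟨fun h1 => ?_, fun h1 i => susp_l2 h1 i⟩, hp⟩
  by_contra h2
  have h3 := (hp h2).2.1
  rw [(he (Or.inr (Or.inl (by omega)))).1 h1] at h3
  exact absurd h3.symm (pow_ne_zero _ (by norm_num))

end Pool.Agent.Results.MP_394d50_gt.FewVertices
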