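import Pool.Agent.L0h97.SE.Tree3

/-!
# Reflection manifolds: the vertices outside of the star of a vertex contain no cycle

Let the flag complex `L` of the finite graph `G` be a homology sphere (and homology manifold) of dimension `n - 1`
(`HSph n G`). The Davis complex `Σ` of the right-angled Coxeter group `W G` is a contractible homology manifold of
dimension `n`, a manifold if `L` is a combinatorial sphere, and its quotients `M = Σ / H` by the torsion-free
subgroups `H` of finite index are closed aspherical `n`-manifolds with `χ(M) = [W : H] χ(W)` and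
`b_i^(2)(M) = [W : H] b_i^(2)(W)`.

For `n ≤ 4` the `ℓ²`-Betti numbers of `M` vanish in all degrees `≠ n / 2` (Davis-Okun). Let `v` be a vertex of `L` such
that the graph `D` induced on the vertices which are neither `v` nor adjacent to `v` contains no cycle; `D` is then a
tree. We show that no edge `s t` of this tree with a leaf `t` is contained in an induced 4-cycle of `G`, and that its
contraction has the same properties with the tree `D - t` (`Pool.Agent.L0h97.SE.tree_rule`); in the end one arrives at the
suspension of the link of `v`.
-/

set_option autoImplicit false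

namespace Pool.Agent.Results.MP_394d50_gt.TreeOutsideStar

open Pool.Agent.W907.SG Pool.Agent.W907.SM Pool.Agent.TH652.Above Pool.Agent.Y132.SI
open Pool.Agent.L0h97.SE

/-- the full subcomplex on `A` is the join of two nonempty full subcomplexes -/
def IsJoin {V : Type} (G : SimpleGraph V) (A : Set V) : Prop :=
  ∃ B C : Set V, B.Nonempty ∧ C.Nonempty ∧ B ∪ C = A ∧ Disjoint B C ∧ ∀ b ∈ B, ∀ c ∈ C, G.Adj b c

/-- `v` is a vertex of the full subcomplex on `A`, and the graph induced on the vertices of `A` which are neither `v` nor
adjacent to `v` contains no cycle -/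
def TreeVertex {V : Type} (G : SimpleGraph V) (A : Set V) (v : V) : Prop :=
  v ∈ A ∧ (G.induce {u | u ∈ A ∧ u ≠ v ∧ ¬ G.Adj v u}).IsAcyclic

/-- **Result.** Let `L` be a flag homology sphere of dimension `n - 1`. Call `v` a tree vertex of a link of `L` if the graph
induced on the vertices of the link which are neither `v` nor adjacent to `v` contains no cycle. Suppose (a) that for
each simplex `T` of `L` (also the empty one) such that `n - |T|` is odd and at least `5` and the link of `T` is not a join,
this link has a tree vertex, or (b) that `n` is even and for each simplex `T` of `L` (also the empty one) such that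
`n - |T|` is even and at least `6` the link of `T` has a tree vertex. Then the `ℓ²`-Betti numbers of `W` vanish in all degrees `≠ n / 2`, all of them vanish if and only if
`χ(W) = 0`, and this is the case if and only if the Betti numbers of the subgroups of finite index of `W` are small. -/
theorem result : ∀ (n : ℕ) (V : Type) [Fintype V] [LinearOrder V] (G : SimpleGraph V), HSph n G →
    ((∀ T : Finset V, G.IsClique (T : Set V) → Odd (n - T.card) → 5 ≤ n - T.card → ¬ IsJoin G (lk G T) →
      ∃ v, TreeVertex G (lk G T) v) ∨
     (Even n ∧ ∀ T : Finset V, G.IsClique (T : Set V) → Even (n - T.card) → 6 ≤ n - T.card →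
      ∃ v, TreeVertex G (lk G T) v)) →
    (∀ i : ℕ, 2 * i ≠ n → L2Van G i) ∧ ((∀ i : ℕ, L2Van G i) ↔ chiW G = 0) ∧
    (chiW G = 0 ↔ ∀ ε : ℝ, 0 < ε → ∃ E : Finset (W G), (1 : W G) ∉ E ∧
      ∀ H : Subgroup (W G), H.FiniteIndex → (∀ g ∈ E, ∀ x : W G, x * g * x⁻¹ ∉ H) →
        ∀ i : ℕ, (Module.finrank ℝ (HInv G H i) : ℝ) ≤ ε * H.index) := by
  intro n V _ _ G hS hyp
  have hs : ∀ i : ℕ, 2 * i ≠ n → L2Van G i := by
    rcases hyp with hyp | ⟨⟨m, hm⟩, hyp⟩
    · intro i hi
      refine tree_singer hS (fun T hT hirr ho h5 => ?_) i hi
      obtain ⟨v, hv⟩ := hyp T hT ho h5 (by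
        rintro ⟨B, C, hB, hC, h1, h2, h3⟩
        rcases hirr B C h1 h2 h3 with h | h
        · exact hB.ne_empty h
        · exact hC.ne_empty h)
      exact ⟨v, hv⟩
    · obtain rfl : n = 2 * m := by omega
      exact fun i hi => even_singer hS (fun T hT he h6 => hyp T hT he h6) i hi
  exact ⟨hs, l2eul V G (n / 2) fun i hi => hs i (by omega), chi_iff G n hs⟩

end Pool.Agent.Results.MP_394d50_gt.TreeOutsideStar
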